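import Pool.Agent.H732R2.SCG.Graph

/-!
# Strongly regular self-complementary graphs on `4k+1` vertices: Q1 is false

If `k` is even and some prime `p ≡ 5 mod 8` divides `4k+1` to an odd power, then there is no
strongly regular self-complementary graph on `4k+1` vertices. The number `k = 16` is admissible
(`65 = 1 ^ 2 + 8 ^ 2`) and `5` divides `65` exactly once, so no such graph has 65 vertices.

Proof idea. Let `M` be the Seidel matrix and `π` an antimorphism. The space of `π`-invariant
vectors carries a similitude with rational entries and factor `n = 4k+1`, so `n ^ c` is a square,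
`c` the number of cycles of `π`: `c` is even. As `n ≡ 1 mod 8` and all cycles but one have length
divisible by 4, the number `c'` of cycles of length divisible by 8 is odd. On the vectors with
`v ∘ π = ζ v`, `ζ` a primitive 8th root of unity, `M` is semilinear for `ζ ↦ -ζ` and squares to
`n`, so `n ^ c'` is a norm from `ℚ(ζ)` to `ℚ(i)`, which fails at the primes above `p`.
-/

namespace Pool.Agent.Results.MP_9bdacc_co.NoGraph65

open Classical in
/-- `G` is strongly regular: it is regular, any two adjacent vertices have the same number `l` of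
common neighbours, and any two distinct non-adjacent vertices have the same number `m` of common
neighbours. -/
def StronglyRegular {n : ℕ} (G : SimpleGraph (Fin n)) : Prop :=
  ∃ d l m : ℕ, G.IsSRGWith n d l m

/-- `G` is isomorphic to its complement. -/
def SelfComplementary {n : ℕ} (G : SimpleGraph (Fin n)) : Prop := Nonempty (G ≃g Gᶜ)

/-- `k ≥ 1` and `4k+1` is a sum of two integer squares. -/
def Admissible (k : ℕ) : Prop := 1 ≤ k ∧ ∃ x y : ℤ, 4 * (k : ℤ) + 1 = x ^ 2 + y ^ 2

theorem obstruction (k p : ℕ) (hk : Even k) (hp : p.Prime) (hp5 : p % 8 = 5)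
    (hodd : Odd (padicValNat p (4 * k + 1))) :
    ¬ ∃ G : SimpleGraph (Fin (4 * k + 1)), StronglyRegular G ∧ SelfComplementary G := by
  rintro ⟨G, ⟨d, l, m, hG⟩, ⟨e⟩⟩
  classical
  have hG' : G.IsSRGWith (Fintype.card (Fin (4 * k + 1))) d l m := by
    rw [Fintype.card_fin]
    exact hG
  have h := H732R2.SCG.sc_of_graph G hG' e
  have h8 : Fintype.card (Fin (4 * k + 1)) % 8 = 1 := by
    rw [Fintype.card_fin]
    obtain ⟨j, hj⟩ := hk
    omega
  have h1 := H732R2.SCG.SC.main h h8 hp hp5
  rw [Fintype.card_fin] at h1
  exact (Nat.not_even_iff_odd.2 hodd) h1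

/-- The answer to Q1 is negative; moreover there is a general obstruction. -/
theorem result :
    (∀ k p : ℕ, Even k → p.Prime → p % 8 = 5 → Odd (padicValNat p (4 * k + 1)) →
      ¬ ∃ G : SimpleGraph (Fin (4 * k + 1)), StronglyRegular G ∧ SelfComplementary G) ∧
    ¬ (∀ k : ℕ, Admissible k →
      ∃ G : SimpleGraph (Fin (4 * k + 1)), StronglyRegular G ∧ SelfComplementary G) := by
  refine ⟨obstruction, fun hall => ?_⟩
  refine obstruction 16 5 (by decide) (by norm_num) (by norm_num) ?_
    (hall 16 ⟨by norm_num, 1, 8, by norm_num⟩)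
  have : Fact (Nat.Prime 5) := ⟨by norm_num⟩
  have h1 : 4 * 16 + 1 = 5 * 13 := by norm_num
  rw [h1, padicValNat.mul (by norm_num) (by norm_num), padicValNat.self (by norm_num),
    padicValNat.eq_zero_of_not_dvd (by norm_num)]
  decide

end Pool.Agent.Results.MP_9bdacc_co.NoGraph65
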